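import Mathlib

/-!
# Dismantling solutions in thin cuboids

Complete classification of the lengths `k` for which `C(2,2,k)`, `C(2,3,k)`, `C(3,3,k)` have a
solution.  A dismantling ending in an independent set is the same thing as an acyclic orientation
of the grid graph (here: a deletion-time function) in which every cube has `0` or `3`
out-neighbours.  Non-existence comes from the divisibility condition together with a verified
layer-by-layer state enumeration; existence comes from explicit periodic time functions.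
-/

namespace Pool.Agent.Results.MP_93d976_co.Classification

/-- A unit cube, given by its coordinate vector. -/
abbrev Cube := ℕ × ℕ × ℕ

/-- The box `C(k,l,m) = {1,...,k} x {1,...,l} x {1,...,m}`. -/
def box (k l m : ℕ) : Finset Cube :=
  Finset.Icc 1 k ×ˢ (Finset.Icc 1 l ×ˢ Finset.Icc 1 m)

/-- Two cubes are neighbours when their coordinate vectors differ by `1` in exactly one
coordinate. -/
def Nbr (p q : Cube) : Prop :=
  ((q.1 = p.1 + 1 ∨ p.1 = q.1 + 1) ∧ p.2.1 = q.2.1 ∧ p.2.2 = q.2.2) ∨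
  (p.1 = q.1 ∧ (q.2.1 = p.2.1 + 1 ∨ p.2.1 = q.2.1 + 1) ∧ p.2.2 = q.2.2) ∨
  (p.1 = q.1 ∧ p.2.1 = q.2.1 ∧ (q.2.2 = p.2.2 + 1 ∨ p.2.2 = q.2.2 + 1))

instance instDecNbr : DecidableRel Nbr := fun p q => by unfold Nbr; infer_instance

/-- A move deletes from the position `P` a cube that has exactly `3` neighbours in `P`. -/
def Move (P Q : Finset Cube) : Prop :=
  ∃ c ∈ P, (P.filter (fun d => Nbr c d)).card = 3 ∧ Q = P.erase c

/-- `S` is a solution in `C(k,l,m)`: no two cubes of `S` are neighbours and `S` is reached from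
the full box by finitely many moves. -/
def IsSolution (k l m : ℕ) (S : Finset Cube) : Prop :=
  (∀ p ∈ S, ∀ q ∈ S, ¬ Nbr p q) ∧ Relation.ReflTransGen Move (box k l m) S

/-- `C(k,l,m)` has a solution. -/
def HasSolution (k l m : ℕ) : Prop := ∃ S, IsSolution k l m S

/-! ### Basic facts -/

theorem nbr_symm {p q : Cube} (h : Nbr p q) : Nbr q p := by
  rcases h with ⟨h1 | h1, h2, h3⟩ | ⟨h1, h2 | h2, h3⟩ | ⟨h1, h2, h3 | h3⟩
  · exact Or.inl ⟨Or.inr h1, h2.symm, h3.symm⟩
  · exact Or.inl ⟨Or.inl h1, h2.symm, h3.symm⟩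
  · exact Or.inr (Or.inl ⟨h1.symm, Or.inr h2, h3.symm⟩)
  · exact Or.inr (Or.inl ⟨h1.symm, Or.inl h2, h3.symm⟩)
  · exact Or.inr (Or.inr ⟨h1.symm, h2.symm, Or.inr h3⟩)
  · exact Or.inr (Or.inr ⟨h1.symm, h2.symm, Or.inl h3⟩)

theorem nbr_irrefl (p : Cube) : ¬ Nbr p p := by
  unfold Nbr; omega

/-- number of out-neighbours for a time function -/
def outc (B : Finset Cube) (τ : Cube → ℕ) (c : Cube) : ℕ :=
  (B.filter (fun d => Nbr c d ∧ τ c < τ d)).card

/-- From a dismantling we extract a deletion time function. -/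
theorem exists_time {B S : Finset Cube} (h : Relation.ReflTransGen Move B S) :
    ∃ (τ : Cube → ℕ) (N : ℕ), S ⊆ B ∧ (∀ c ∈ S, τ c = N) ∧ (∀ c ∈ B, c ∉ S → τ c < N) ∧
      (∀ c ∈ B, c ∉ S → outc B τ c = 3) ∧
      (∀ c ∈ B, ∀ d ∈ B, c ∉ S → Nbr c d → τ c ≠ τ d) := by
  induction h with
  | refl =>
    refine ⟨fun _ => 0, 0, subset_rfl, fun _ _ => rfl, ?_, ?_, ?_⟩
    · intro c hc hc'; exact absurd hc hc'
    · intro c hc hc'; exact absurd hc hc'
    · intro c hc d hd hc'; exact absurd hc hc'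
  | @tail P Q _ hmove ih =>
    obtain ⟨τ, N, hSB, hN, hlt, hout, hne⟩ := ih
    obtain ⟨c, hcP, hcard, rfl⟩ := hmove
    have hcB : c ∈ B := hSB hcP
    let τ' : Cube → ℕ := fun x => if x = c then N else if x ∈ P then N + 1 else τ x
    have hτc : τ' c = N := by simp [τ']
    have hτP : ∀ x ∈ P, x ≠ c → τ' x = N + 1 := by
      intro x hx hxc; simp [τ', hxc, hx]
    have hτo : ∀ x, x ∉ P → τ' x = τ x := by
      intro x hx
      have : x ≠ c := fun h => hx (h ▸ hcP)
      simp [τ', this, hx]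
    refine ⟨τ', N + 1, ?_, ?_, ?_, ?_, ?_⟩
    · exact (Finset.erase_subset _ _).trans hSB
    · intro x hx
      rw [Finset.mem_erase] at hx
      exact hτP x hx.2 hx.1
    · intro x hxB hx
      rw [Finset.mem_erase, not_and_or, not_not] at hx
      rcases hx with hx | hx
      · rw [hx, hτc]; omega
      · rw [hτo x hx]; have := hlt x hxB hx; omega
    · intro x hxB hx
      rw [Finset.mem_erase, not_and_or, not_not] at hx
      by_cases hxc : x = c
      · subst hxc
        rw [← hcard]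
        unfold outc
        congr 1
        ext d
        simp only [Finset.mem_filter]
        constructor
        · rintro ⟨hdB, hnb, hl⟩
          by_cases hdP : d ∈ P
          · exact ⟨hdP, hnb⟩
          · rw [hτo d hdP, hτc] at hl
            have := hlt d hdB hdP
            omega
        · rintro ⟨hdP, hnb⟩
          refine ⟨hSB hdP, hnb, ?_⟩
          have hdx : d ≠ x := by rintro rfl; exact nbr_irrefl _ hnb
          rw [hτc, hτP d hdP hdx]; omega
      · have hxP : x ∉ P := by tauto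
        rw [← hout x hxB hxP]
        unfold outc
        congr 1
        apply Finset.filter_congr
        intro d hdB
        rw [hτo x hxP]
        have hxl := hlt x hxB hxP
        by_cases hdP : d ∈ P
        · have h1 : τ d = N := hN d hdP
          by_cases hdc : d = c
          · subst hdc; rw [hτc, h1]
          · rw [hτP d hdP hdc, h1]
            constructor <;> rintro ⟨a, _⟩ <;> exact ⟨a, by omega⟩
        · rw [hτo d hdP]
    · intro x hxB d hdB hx hnb
      rw [Finset.mem_erase, not_and_or, not_not] at hx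
      by_cases hxc : x = c
      · subst hxc
        have hdx : d ≠ x := by rintro rfl; exact nbr_irrefl _ hnb
        rw [hτc]
        by_cases hdP : d ∈ P
        · rw [hτP d hdP hdx]; omega
        · rw [hτo d hdP]; have := hlt d hdB hdP; omega
      · have hxP : x ∉ P := by tauto
        rw [hτo x hxP]
        have hxl := hlt x hxB hxP
        by_cases hdP : d ∈ P
        · by_cases hdc : d = c
          · subst hdc; rw [hτc]; omega
          · rw [hτP d hdP hdc]; omega
        · rw [hτo d hdP]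
          exact hne x hxB d hdB hxP hnb

/-- The useful form: a solution gives a time function, all of whose out-degrees are `0` or `3`. -/
theorem time_of_solution {k l m : ℕ} (h : HasSolution k l m) :
    ∃ τ : Cube → ℕ, (∀ c ∈ box k l m, outc (box k l m) τ c = 0 ∨ outc (box k l m) τ c = 3) ∧
      (∀ c ∈ box k l m, ∀ d ∈ box k l m, Nbr c d → τ c ≠ τ d) := by
  obtain ⟨S, hind, hreach⟩ := h
  obtain ⟨τ, N, hSB, hN, hlt, hout, hne⟩ := exists_time hreach
  refine ⟨τ, ?_, ?_⟩
  · intro c hc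
    by_cases hcS : c ∈ S
    · left
      unfold outc
      rw [Finset.card_eq_zero, Finset.filter_eq_empty_iff]
      rintro d hd ⟨hnb, hl⟩
      rw [hN c hcS] at hl
      by_cases hdS : d ∈ S
      · exact hind c hcS d hdS hnb
      · have := hlt d hd hdS; omega
    · right; exact hout c hc hcS
  · intro c hc d hd hnb
    by_cases hcS : c ∈ S
    · have hdS : d ∉ S := fun h => hind c hcS d h hnb
      exact (hne d hd c hc hdS (nbr_symm hnb)).symm
    · exact hne c hc d hd hcS hnb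

/-- Conversely, such a time function yields a solution. -/
theorem solution_of_time {k l m : ℕ} (τ : Cube → ℕ)
    (hout : ∀ c ∈ box k l m, outc (box k l m) τ c = 0 ∨ outc (box k l m) τ c = 3)
    (hne : ∀ c ∈ box k l m, ∀ d ∈ box k l m, Nbr c d → τ c ≠ τ d) : HasSolution k l m := by
  set B := box k l m with hB
  let S := B.filter (fun c => outc B τ c = 0)
  -- every down-closed set of non-sinks can be deleted
  have key : ∀ n : ℕ, ∀ D : Finset Cube, D.card = n → D ⊆ B →
      (∀ c ∈ D, outc B τ c = 3) → (∀ c ∈ D, ∀ d ∈ B, Nbr c d → τ d < τ c → d ∈ D) →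
      Relation.ReflTransGen Move B (B \ D) := by
    intro n
    induction n with
    | zero =>
      intro D hD _ _ _
      rw [Finset.card_eq_zero] at hD
      subst hD
      simp only [Finset.sdiff_empty]
      exact Relation.ReflTransGen.refl
    | succ n ih =>
      intro D hD hDB h3 hdown
      have hne' : D.Nonempty := by
        rw [← Finset.card_pos]; omega
      obtain ⟨c, hcD, hmax⟩ := Finset.exists_max_image D τ hne'
      have hD' : (D.erase c).card = n := by rw [Finset.card_erase_of_mem hcD]; omega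
      have h1 := ih (D.erase c) hD' ((Finset.erase_subset _ _).trans hDB)
        (fun x hx => h3 x (Finset.mem_of_mem_erase hx))
        (by
          intro x hx d hd hnb hl
          have hxD := Finset.mem_of_mem_erase hx
          have hdD := hdown x hxD d hd hnb hl
          refine Finset.mem_erase.2 ⟨?_, hdD⟩
          rintro rfl
          have := hmax x hxD
          omega)
      refine Relation.ReflTransGen.tail h1 ⟨c, ?_, ?_, ?_⟩
      · simp [hDB hcD]
      · rw [← h3 c hcD]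
        unfold outc
        congr 1
        ext d
        simp only [Finset.mem_filter, Finset.mem_sdiff, Finset.mem_erase, not_and]
        constructor
        · rintro ⟨⟨hdB, hd⟩, hnb⟩
          refine ⟨hdB, hnb, ?_⟩
          have hdc : d ≠ c := by rintro rfl; exact nbr_irrefl _ hnb
          have hdD : d ∉ D := hd hdc
          have h2 := hne c (hDB hcD) d hdB hnb
          by_contra hcon
          exact hdD (hdown c hcD d hdB hnb (by omega))
        · rintro ⟨hdB, hnb, hl⟩
          refine ⟨⟨hdB, ?_⟩, hnb⟩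
          intro _ hdD
          have := hmax d hdD
          omega
      · ext x
        simp only [Finset.mem_sdiff, Finset.mem_erase, not_and]
        by_cases hx : x = c
        · subst hx; simp [hcD]
        · simp [hx]
  refine ⟨S, ?_, ?_⟩
  · intro p hp q hq hnb
    simp only [S, Finset.mem_filter] at hp hq
    have h1 := hne p hp.1 q hq.1 hnb
    rcases Nat.lt_or_gt_of_ne h1 with h | h
    · have := hp.2
      unfold outc at this
      rw [Finset.card_eq_zero, Finset.filter_eq_empty_iff] at this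
      exact this hq.1 ⟨hnb, h⟩
    · have := hq.2
      unfold outc at this
      rw [Finset.card_eq_zero, Finset.filter_eq_empty_iff] at this
      exact this hp.1 ⟨nbr_symm hnb, h⟩
  · have h2 := key _ (B.filter (fun c => outc B τ c = 3)) rfl (Finset.filter_subset _ _)
      (fun c hc => (Finset.mem_filter.1 hc).2)
      (by
        intro c hc d hd hnb hl
        refine Finset.mem_filter.2 ⟨hd, ?_⟩
        rcases hout d hd with h | h
        · unfold outc at h
          rw [Finset.card_eq_zero, Finset.filter_eq_empty_iff] at h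
          exact absurd ⟨nbr_symm hnb, hl⟩ (h (Finset.mem_filter.1 hc).1)
        · exact h)
    have h3 : B \ B.filter (fun c => outc B τ c = 3) = S := by
      ext x
      simp only [S, Finset.mem_sdiff, Finset.mem_filter, not_and]
      constructor
      · rintro ⟨hx, h⟩
        exact ⟨hx, (hout x hx).resolve_right (h hx)⟩
      · rintro ⟨hx, h⟩
        exact ⟨hx, fun _ => by omega⟩
    rw [h3] at h2
    exact h2

/-! ### Counting exposed faces -/

/-- number of ordered adjacent pairs -/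
def pairs (P : Finset Cube) : ℕ := ∑ x ∈ P, ∑ y ∈ P, if Nbr x y then 1 else 0

theorem pairs_insert {Q : Finset Cube} {c : Cube} (hc : c ∉ Q) :
    pairs (insert c Q) = pairs Q + 2 * ((insert c Q).filter (fun d => Nbr c d)).card := by
  unfold pairs
  rw [Finset.card_filter, Finset.sum_insert hc, Finset.sum_insert hc, if_neg (nbr_irrefl c)]
  have h1 : ∀ x ∈ Q, (∑ y ∈ insert c Q, if Nbr x y then 1 else 0)
      = (if Nbr c x then 1 else 0) + ∑ y ∈ Q, (if Nbr x y then 1 else 0) := by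
    intro x _
    rw [Finset.sum_insert hc]
    congr 1
    by_cases h : Nbr c x
    · rw [if_pos h, if_pos (nbr_symm h)]
    · rw [if_neg h, if_neg (fun h' => h (nbr_symm h'))]
  rw [Finset.sum_congr rfl h1, Finset.sum_add_distrib]
  ring

theorem pairs_invariant {B S : Finset Cube} (h : Relation.ReflTransGen Move B S) :
    S ⊆ B ∧ pairs B + 6 * S.card = pairs S + 6 * B.card := by
  induction h with
  | refl => exact ⟨subset_rfl, rfl⟩
  | @tail P Q _ hmove ih =>
    obtain ⟨c, hcP, hcard, rfl⟩ := hmove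
    refine ⟨(Finset.erase_subset _ _).trans ih.1, ?_⟩
    have h1 := pairs_insert (Finset.notMem_erase c P)
    rw [Finset.insert_erase hcP, hcard] at h1
    have h2 := ih.2
    have h3 := Finset.card_erase_add_one hcP
    omega

theorem sum_factor (A B C : Finset ℕ) (f g h : ℕ → ℕ → ℕ) :
    (∑ p ∈ A ×ˢ (B ×ˢ C), ∑ q ∈ A ×ˢ (B ×ˢ C), f p.1 q.1 * g p.2.1 q.2.1 * h p.2.2 q.2.2)
    = (∑ a ∈ A, ∑ a' ∈ A, f a a') * (∑ b ∈ B, ∑ b' ∈ B, g b b') *
      (∑ c ∈ C, ∑ c' ∈ C, h c c') := by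
  simp only [Finset.sum_product, ← Finset.mul_sum, ← Finset.sum_mul]

theorem adj_sum (k : ℕ) :
    (∑ a ∈ Finset.Icc 1 (k+1), ∑ b ∈ Finset.Icc 1 (k+1),
      if (b = a + 1 ∨ a = b + 1) then 1 else 0) = 2 * k := by
  induction k with
  | zero => simp
  | succ k ih =>
    have hI : Finset.Icc 1 (k+1+1) = insert (k+1+1) (Finset.Icc 1 (k+1)) := by
      ext x; simp only [Finset.mem_Icc, Finset.mem_insert]; omega
    have hn : (k+1+1) ∉ Finset.Icc 1 (k+1) := by simp
    rw [hI, Finset.sum_insert hn, Finset.sum_insert hn]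
    have h1 : ∀ x ∈ Finset.Icc 1 (k+1), (∑ y ∈ insert (k+1+1) (Finset.Icc 1 (k+1)),
        if (y = x + 1 ∨ x = y + 1) then 1 else 0) = (if x = k+1 then 1 else 0) +
        ∑ y ∈ Finset.Icc 1 (k+1), (if (y = x + 1 ∨ x = y + 1) then 1 else 0) := by
      intro x hx
      rw [Finset.mem_Icc] at hx
      rw [Finset.sum_insert hn]
      congr 1
      by_cases h : x = k + 1
      · rw [if_pos (Or.inl (by omega)), if_pos h]
      · rw [if_neg (by omega), if_neg h]
    rw [Finset.sum_congr rfl h1, Finset.sum_add_distrib, ih]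
    have h2 : ∀ y ∈ Finset.Icc 1 (k+1), (if (y = k+1+1+1 ∨ k+1+1 = y+1) then 1 else 0)
        = (if y = k+1 then 1 else 0) := by
      intro y hy
      rw [Finset.mem_Icc] at hy
      by_cases h : y = k + 1
      · rw [if_pos (Or.inr (by omega)), if_pos h]
      · rw [if_neg (by omega), if_neg h]
    rw [Finset.sum_congr rfl h2, Finset.sum_ite_eq']
    simp
    ring

theorem diag_sum (k : ℕ) :
    (∑ a ∈ Finset.Icc 1 k, ∑ b ∈ Finset.Icc 1 k, if a = b then 1 else 0) = k := by
  have : ∀ a ∈ Finset.Icc 1 k, (∑ b ∈ Finset.Icc 1 k, if a = b then 1 else 0) = 1 := by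
    intro a ha
    rw [Finset.sum_ite_eq, if_pos ha]
  rw [Finset.sum_congr rfl this]
  simp

theorem pairs_box (k l m : ℕ) : pairs (box (k+1) (l+1) (m+1)) =
    2 * k * (l+1) * (m+1) + (k+1) * (2 * l) * (m+1) + (k+1) * (l+1) * (2 * m) := by
  unfold pairs box
  have h : ∀ p q : Cube, (if Nbr p q then 1 else 0) =
      (if (q.1 = p.1 + 1 ∨ p.1 = q.1 + 1) then 1 else 0) * (if p.2.1 = q.2.1 then 1 else 0) *
        (if p.2.2 = q.2.2 then 1 else 0) +
      (if p.1 = q.1 then 1 else 0) * (if (q.2.1 = p.2.1 + 1 ∨ p.2.1 = q.2.1 + 1) then 1 else 0) *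
        (if p.2.2 = q.2.2 then 1 else 0) +
      (if p.1 = q.1 then 1 else 0) * (if p.2.1 = q.2.1 then 1 else 0) *
        (if (q.2.2 = p.2.2 + 1 ∨ p.2.2 = q.2.2 + 1) then 1 else 0) := by
    intro p q
    unfold Nbr
    split_ifs <;> first | rfl | (exfalso; omega)
  simp only [h, Finset.sum_add_distrib]
  rw [sum_factor _ _ _ (fun a a' => if (a' = a + 1 ∨ a = a' + 1) then 1 else 0)
      (fun a a' => if a = a' then 1 else 0) (fun a a' => if a = a' then 1 else 0),
    sum_factor _ _ _ (fun a a' => if a = a' then 1 else 0)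
      (fun a a' => if (a' = a + 1 ∨ a = a' + 1) then 1 else 0)
      (fun a a' => if a = a' then 1 else 0),
    sum_factor _ _ _ (fun a a' => if a = a' then 1 else 0)
      (fun a a' => if a = a' then 1 else 0)
      (fun a a' => if (a' = a + 1 ∨ a = a' + 1) then 1 else 0)]
  simp only [adj_sum, diag_sum]

/-- The divisibility condition. -/
theorem div_of_solution {k l m : ℕ} (h : HasSolution (k+1) (l+1) (m+1)) :
    3 ∣ (k+1) * (l+1) + (l+1) * (m+1) + (m+1) * (k+1) := by
  obtain ⟨S, hind, hreach⟩ := h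
  have h1 := (pairs_invariant hreach).2
  have h2 : pairs S = 0 := by
    unfold pairs
    apply Finset.sum_eq_zero
    intro x hx
    apply Finset.sum_eq_zero
    intro y hy
    rw [if_neg (hind x hx y hy)]
  rw [h2, pairs_box] at h1
  have h3 : (box (k+1) (l+1) (m+1)).card = (k+1) * ((l+1) * (m+1)) := by
    simp [box]
  rw [h3] at h1
  refine ⟨S.card, ?_⟩
  nlinarith [h1]

/-! ### Local form of the out-degree -/

/-- indicator used to count out-neighbours -/
def ind (a b k : ℕ) (τ : Cube → ℕ) (c d : Cube) : ℕ :=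
  if d ∈ box a b k ∧ τ c < τ d then 1 else 0

theorem outc_eq {a b k x y z : ℕ} (τ : Cube → ℕ) (hc : (x, y, z) ∈ box a b k) :
    outc (box a b k) τ (x, y, z) =
      ind a b k τ (x, y, z) (x+1, y, z) + ind a b k τ (x, y, z) (x-1, y, z) +
      ind a b k τ (x, y, z) (x, y+1, z) + ind a b k τ (x, y, z) (x, y-1, z) +
      ind a b k τ (x, y, z) (x, y, z+1) + ind a b k τ (x, y, z) (x, y, z-1) := by
  have hpos : 1 ≤ x ∧ 1 ≤ y ∧ 1 ≤ z := by
    simp only [box, Finset.mem_product, Finset.mem_Icc] at hc; omega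
  obtain ⟨hx, hy, hz⟩ := hpos
  let cands : Finset Cube := {(x+1, y, z), (x-1, y, z), (x, y+1, z), (x, y-1, z), (x, y, z+1),
    (x, y, z-1)}
  have h1 : (box a b k).filter (fun d => Nbr (x, y, z) d ∧ τ (x, y, z) < τ d) =
      cands.filter (fun d => d ∈ box a b k ∧ τ (x, y, z) < τ d) := by
    ext ⟨u, v, w⟩
    simp only [Finset.mem_filter, cands, Finset.mem_insert, Finset.mem_singleton, Prod.mk.injEq]
    constructor
    · rintro ⟨hb, hn, hl⟩
      refine ⟨?_, hb, hl⟩
      rcases hn with ⟨h1 | h1, h2, h3⟩ | ⟨h1, h2 | h2, h3⟩ | ⟨h1, h2, h3 | h3⟩ <;>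
        simp only at h1 h2 h3
      · exact Or.inl ⟨h1, h2.symm, h3.symm⟩
      · exact Or.inr (Or.inl ⟨by omega, h2.symm, h3.symm⟩)
      · exact Or.inr (Or.inr (Or.inl ⟨h1.symm, h2, h3.symm⟩))
      · exact Or.inr (Or.inr (Or.inr (Or.inl ⟨h1.symm, by omega, h3.symm⟩)))
      · exact Or.inr (Or.inr (Or.inr (Or.inr (Or.inl ⟨h1.symm, h2.symm, h3⟩))))
      · exact Or.inr (Or.inr (Or.inr (Or.inr (Or.inr ⟨h1.symm, h2.symm, by omega⟩))))
    · rintro ⟨hn, hb, hl⟩
      refine ⟨hb, ?_, hl⟩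
      unfold Nbr
      simp only
      omega
  unfold outc
  rw [h1, Finset.card_filter]
  simp only [cands]
  rw [Finset.sum_insert, Finset.sum_insert, Finset.sum_insert, Finset.sum_insert,
    Finset.sum_insert, Finset.sum_singleton]
  · simp only [ind]; ring
  all_goals
    simp only [Finset.mem_insert, Finset.mem_singleton, Prod.mk.injEq]
    omega

/-! ### The strip automaton -/

/-- count of larger neighbours inside a layer -/
def cntE (E : List (ℕ × ℕ)) (f : ℕ → ℕ) (v : ℕ) : ℕ :=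
  (E.map (fun e => if (e.1 = v ∧ f e.1 < f e.2) ∨ (e.2 = v ∧ f e.2 < f e.1) then 1 else 0)).sum

/-- A time function on a strip with `k` layers, cross-section graph `E` on `{0,...,N-1}`. -/
structure Strip (N : ℕ) (E : List (ℕ × ℕ)) (k : ℕ) (T : ℕ → ℕ → ℕ) : Prop where
  bot : ∀ v, T 0 v = 0
  top : ∀ v, T (k+1) v = 0
  pos : ∀ z v, 1 ≤ z → z ≤ k → v < N → 0 < T z v
  neE : ∀ z, 1 ≤ z → z ≤ k → ∀ e ∈ E, T z e.1 ≠ T z e.2
  neV : ∀ z v, 1 ≤ z → z < k → v < N → T z v ≠ T (z+1) v
  deg : ∀ z v, 1 ≤ z → z ≤ k → v < N →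
    cntE E (T z) v + (if T z v < T (z-1) v then 1 else 0) + (if T z v < T (z+1) v then 1 else 0)
      = 0 ∨
    cntE E (T z) v + (if T z v < T (z-1) v then 1 else 0) + (if T z v < T (z+1) v then 1 else 0)
      = 3

def oris : List (ℕ × ℕ) → List (List (ℕ × ℕ))
  | [] => [[]]
  | e :: E => (oris E).flatMap (fun L => [e :: L, (e.2, e.1) :: L])

def ori (f : ℕ → ℕ) (E : List (ℕ × ℕ)) : List (ℕ × ℕ) :=
  E.map (fun e => if f e.1 < f e.2 then e else (e.2, e.1))

theorem ori_mem (f : ℕ → ℕ) (E : List (ℕ × ℕ)) : ori f E ∈ oris E := by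
  induction E with
  | nil => simp [ori, oris]
  | cons e E ih =>
    simp only [oris, List.mem_flatMap]
    refine ⟨ori f E, ih, ?_⟩
    simp only [ori, List.map_cons, List.mem_cons, List.not_mem_nil, or_false]
    split_ifs
    · left; rfl
    · right; rfl

def outdeg (L : List (ℕ × ℕ)) (v : ℕ) : ℕ :=
  match L with
  | [] => 0
  | e :: L => (if e.1 = v then 1 else 0) + outdeg L v

theorem outdeg_ori (f : ℕ → ℕ) (E : List (ℕ × ℕ)) (h : ∀ e ∈ E, f e.1 ≠ f e.2) (v : ℕ) :
    outdeg (ori f E) v = cntE E f v := by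
  induction E with
  | nil => simp [ori, outdeg, cntE]
  | cons e E ih =>
    have h1 := ih (fun e he => h e (List.mem_cons_of_mem _ he))
    have h2 := h e List.mem_cons_self
    simp only [ori, cntE, List.map_cons, outdeg, List.sum_cons] at h1 ⊢
    rw [h1]
    congr 1
    by_cases hl : f e.1 < f e.2
    · rw [if_pos hl]
      by_cases hv : e.1 = v
      · rw [if_pos hv, if_pos (Or.inl ⟨hv, hl⟩)]
      · rw [if_neg hv, if_neg]
        rintro (⟨h3, _⟩ | ⟨_, h3⟩)
        · exact hv h3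
        · omega
    · rw [if_neg hl]
      have hl' : f e.2 < f e.1 := by omega
      by_cases hv : e.2 = v
      · rw [if_pos hv, if_pos (Or.inr ⟨hv, hl'⟩)]
      · rw [if_neg hv, if_neg]
        rintro (⟨_, h3⟩ | ⟨h3, _⟩)
        · omega
        · exact hv h3

theorem ori_lt (f : ℕ → ℕ) (E : List (ℕ × ℕ)) (h : ∀ e ∈ E, f e.1 ≠ f e.2) :
    ∀ e ∈ ori f E, f e.1 < f e.2 := by
  intro e he
  simp only [ori, List.mem_map] at he
  obtain ⟨e', he', rfl⟩ := he
  split_ifs with h1
  · exact h1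
  · have := h e' he'
    simp only
    omega

/-- bit rows of a relation given by a list of pairs -/
def row (L : List (ℕ × ℕ)) (i : ℕ) : ℕ :=
  match L with
  | [] => 0
  | e :: L => if e.1 = i then (2 ^ e.2) ||| row L i else row L i

def Good (f : ℕ → ℕ) (M : List ℕ) : Prop :=
  ∀ i j, (M.getD i 0).testBit j = true → f i < f j

theorem row_good (f : ℕ → ℕ) (L : List (ℕ × ℕ)) (h : ∀ e ∈ L, f e.1 < f e.2) (i j : ℕ)
    (hb : (row L i).testBit j = true) : f i < f j := by
  induction L with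
  | nil => simp [row] at hb
  | cons e L ih =>
    have ih' := ih (fun e he => h e (List.mem_cons_of_mem _ he))
    simp only [row] at hb
    split_ifs at hb with h1
    · rw [Nat.testBit_or, Bool.or_eq_true] at hb
      rcases hb with hb | hb
      · rw [Nat.testBit_two_pow] at hb
        have hb' : e.2 = j := by simpa using hb
        rw [← h1, ← hb']
        exact h e List.mem_cons_self
      · exact ih' hb
    · exact ih' hb

def wstep (M : List ℕ) (k : ℕ) : List ℕ :=
  M.map (fun r => if r.testBit k then r ||| M.getD k 0 else r)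

theorem wstep_good {f : ℕ → ℕ} {M : List ℕ} (h : Good f M) (k : ℕ) : Good f (wstep M k) := by
  intro i j hb
  have h0 : (wstep M k).getD i 0 = (fun r => if r.testBit k then r ||| M.getD k 0 else r)
      (M.getD i 0) := by
    unfold wstep
    by_cases hi : i < M.length
    · simp [List.getD_eq_getElem?_getD, hi]
    · simp [List.getD_eq_getElem?_getD, hi]
  rw [h0] at hb
  simp only at hb
  split_ifs at hb with h1
  · rw [Nat.testBit_or, Bool.or_eq_true] at hb
    rcases hb with hb | hb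
    · exact h i j hb
    · exact (h i k h1).trans (h k j hb)
  · exact h i j hb

def closure (N : ℕ) (M : List ℕ) : List ℕ := (List.range N).foldl wstep M

theorem foldl_good {f : ℕ → ℕ} (l : List ℕ) : ∀ {M : List ℕ}, Good f M →
    Good f (l.foldl wstep M) := by
  induction l with
  | nil => intro M h; exact h
  | cons a l ih => intro M h; exact ih (wstep_good h a)

theorem closure_good {f : ℕ → ℕ} {M : List ℕ} (N : ℕ) (h : Good f M) : Good f (closure N M) :=
  foldl_good _ h

/-- bit mask of a list of booleans -/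
def mask (U : List Bool) : ℕ :=
  match U with
  | [] => 0
  | b :: U => Nat.bit b (mask U)

theorem mask_testBit (U : List Bool) (j : ℕ) : (mask U).testBit j = U.getD j false := by
  induction U generalizing j with
  | nil => simp [mask]
  | cons b U ih =>
    cases j with
    | zero => simp [mask]
    | succ j => simp [mask, Nat.testBit_bit_succ, ih]

abbrev St := List Bool × List ℕ

def next (N : ℕ) (s : St) (L : List (ℕ × ℕ)) : List St :=
  let ss := (List.range N).map (fun v => outdeg L v + (if s.1.getD v false then 0 else 1))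
  if ss.all (fun s => s == 0 || s == 2 || s == 3) then
    let C := closure N ((List.range N).map (fun i => row L i ||| s.2.getD i 0))
    if (List.range N).any (fun v => (C.getD v 0).testBit v) then []
    else
      let U := ss.map (fun s => s == 2)
      let m := mask U
      [(U, (List.range N).map (fun i => if U.getD i false then 0 else (C.getD i 0) &&& m))]
  else []

def step (N : ℕ) (E : List (ℕ × ℕ)) (s : St) : List St := (oris E).flatMap (next N s)

/-- list of states after `z` layers -/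
def states (N : ℕ) (E : List (ℕ × ℕ)) : ℕ → List St
  | 0 => [(List.replicate N true, List.replicate N 0)]
  | z+1 => ((states N E z).flatMap (step N E)).dedup

/-- the state `s` describes the time function at the interface of layers `z` and `z+1` -/
def Desc (N k : ℕ) (T : ℕ → ℕ → ℕ) (z : ℕ) (s : St) : Prop :=
  s.1.length = N ∧ (∀ v < N, s.1.getD v false = decide (T z v < T (z+1) v)) ∧
  (z < k → Good (T (z+1)) s.2)

theorem getD_map_range (N : ℕ) {α : Type} (g : ℕ → α) (d : α) (i : ℕ) :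
    ((List.range N).map g).getD i d = if i < N then g i else d := by
  by_cases h : i < N
  · simp [List.getD_eq_getElem?_getD, h]
  · simp [List.getD_eq_getElem?_getD, h]

theorem step_sound {N k : ℕ} {E : List (ℕ × ℕ)} {T : ℕ → ℕ → ℕ} (hT : Strip N E k T)
    {z : ℕ} (hz : z < k) {s : St} (hs : Desc N k T z s) :
    ∃ s' ∈ step N E s, Desc N k T (z+1) s' := by
  obtain ⟨hlen, hU, hR⟩ := hs
  have hneE := hT.neE (z+1) (by omega) (by omega)
  set L := ori (T (z+1)) E with hL
  have hLdeg : ∀ v, outdeg L v = cntE E (T (z+1)) v := outdeg_ori (T (z+1)) E hneE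
  have hss : ∀ v < N, (if s.1.getD v false then 0 else 1) =
      (if T (z+1) v < T (z+1-1) v then 1 else 0) := by
    intro v hv
    rw [hU v hv, Nat.add_sub_cancel]
    have hpos := hT.pos (z+1) v (by omega) (by omega) hv
    by_cases hz0 : z = 0
    · subst hz0
      have h0 := hT.bot v
      simp only [Nat.zero_add] at hpos h0 ⊢
      rw [if_pos (by simp only [decide_eq_true_eq]; omega), if_neg (by omega)]
    · have hne := hT.neV z v (by omega) hz hv
      by_cases hlt : T z v < T (z+1) v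
      · rw [if_pos (by simpa using hlt), if_neg (by omega)]
      · rw [if_neg (by simpa using hlt), if_pos (by omega)]
  have hdeg : ∀ v < N, outdeg L v + (if s.1.getD v false then 0 else 1) = 0 ∧
      ¬ (T (z+1) v < T (z+1+1) v) ∨
      outdeg L v + (if s.1.getD v false then 0 else 1) = 3 ∧ ¬ (T (z+1) v < T (z+1+1) v) ∨
      outdeg L v + (if s.1.getD v false then 0 else 1) = 2 ∧ (T (z+1) v < T (z+1+1) v) := by
    intro v hv
    have h := hT.deg (z+1) v (by omega) (by omega) hv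
    rw [hLdeg, hss v hv]
    by_cases hlt : T (z+1) v < T (z+1+1) v
    · rw [if_pos hlt] at h
      omega
    · rw [if_neg hlt] at h
      omega
  -- the closure is good
  have hM : Good (T (z+1)) ((List.range N).map (fun i => row L i ||| s.2.getD i 0)) := by
    intro i j hb
    rw [getD_map_range] at hb
    split_ifs at hb with hi
    · rw [Nat.testBit_or, Bool.or_eq_true] at hb
      rcases hb with hb | hb
      · exact row_good (T (z+1)) L (ori_lt (T (z+1)) E hneE) i j hb
      · exact hR hz i j hb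
    · simp at hb
  have hC := closure_good N hM
  set C := closure N ((List.range N).map (fun i => row L i ||| s.2.getD i 0)) with hCdef
  set ss := (List.range N).map (fun v => outdeg L v + (if s.1.getD v false then 0 else 1))
    with hssdef
  have hall : ss.all (fun s => s == 0 || s == 2 || s == 3) = true := by
    rw [List.all_eq_true]
    intro x hx
    simp only [hssdef, List.mem_map, List.mem_range] at hx
    obtain ⟨v, hv, rfl⟩ := hx
    rcases hdeg v hv with h | h | h <;> rw [h.1] <;> rfl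
  have hany : ¬ ((List.range N).any (fun v => (C.getD v 0).testBit v) = true) := by
    rw [List.any_eq_true]
    rintro ⟨v, _, hb⟩
    exact lt_irrefl _ (hC v v hb)
  set U := ss.map (fun s => s == 2) with hUdef
  have hUget : ∀ v < N, U.getD v false = decide (T (z+1) v < T (z+1+1) v) := by
    intro v hv
    have h1 : U.getD v false = (outdeg L v + (if s.1.getD v false then 0 else 1) == 2) := by
      rw [hUdef, hssdef, List.map_map, getD_map_range, if_pos hv]
      rfl
    rw [h1]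
    rcases hdeg v hv with h | h | h
    · rw [h.1]; simp [h.2]
    · rw [h.1]; simp [h.2]
    · rw [h.1]; simp [h.2]
  refine ⟨(U, (List.range N).map (fun i => if U.getD i false then 0 else (C.getD i 0) &&& mask U)),
    ?_, ?_, ?_, ?_⟩
  · unfold step
    rw [List.mem_flatMap]
    refine ⟨L, ori_mem (T (z+1)) E, ?_⟩
    unfold next
    simp only
    rw [← hssdef, if_pos hall, ← hCdef, if_neg hany, ← hUdef]
    exact List.mem_singleton.2 rfl
  · simp [hUdef, hssdef]
  · exact hUget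
  · intro hzk i j hb
    simp only at hb
    rw [getD_map_range] at hb
    split_ifs at hb with hi hUi
    · simp at hb
    · rw [Nat.testBit_and, Bool.and_eq_true, mask_testBit] at hb
      have hij := hC i j hb.1
      have hj : j < N := by
        by_contra hcon
        have : U.getD j false = false := by
          rw [hUdef, hssdef, List.map_map, getD_map_range, if_neg hcon]
        rw [this] at hb
        exact absurd hb.2 (by simp)
      have hUj := hUget j hj
      rw [hb.2] at hUj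
      have hj' : T (z+1) j < T (z+1+1) j := by simpa using hUj.symm
      have hUi' := hUget i hi
      have hUi2 : U.getD i false = false := by simpa using hUi
      rw [hUi2] at hUi'
      have hi' : ¬ (T (z+1) i < T (z+1+1) i) := by simpa using hUi'.symm
      have hne := hT.neV (z+1) i (by omega) hzk hi
      omega
    · simp at hb

theorem states_sound {N k : ℕ} {E : List (ℕ × ℕ)} {T : ℕ → ℕ → ℕ} (hT : Strip N E k T)
    (hk : 1 ≤ k) : ∀ z ≤ k, ∃ s ∈ states N E z, Desc N k T z s := by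
  intro z
  induction z with
  | zero =>
    intro _
    refine ⟨(List.replicate N true, List.replicate N 0), by simp [states], ?_, ?_, ?_⟩
    · simp
    · intro v hv
      have := hT.pos 1 v le_rfl (by omega) hv
      have h0 := hT.bot v
      simp [List.getD_eq_getElem?_getD, hv, h0, this]
    · intro _ i j hb
      exfalso
      by_cases hi : i < N
      · simp [List.getD_eq_getElem?_getD, hi] at hb
      · simp [List.getD_eq_getElem?_getD, hi] at hb
  | succ z ih =>
    intro hz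
    obtain ⟨s, hs, hd⟩ := ih (by omega)
    obtain ⟨s', hs', hd'⟩ := step_sound hT (by omega) hd
    refine ⟨s', ?_, hd'⟩
    simp only [states, List.mem_dedup, List.mem_flatMap]
    exact ⟨s, hs, hs'⟩

theorem no_strip {N k : ℕ} {E : List (ℕ × ℕ)} {T : ℕ → ℕ → ℕ} (hT : Strip N E k T)
    (hk : 1 ≤ k) (h : (states N E k).all (fun s => s.1.any (fun b => b)) = true) : False := by
  obtain ⟨s, hs, hlen, hU, _⟩ := states_sound hT hk k le_rfl
  rw [List.all_eq_true] at h
  have h1 := h s hs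
  rw [List.any_eq_true] at h1
  obtain ⟨b, hb, hb'⟩ := h1
  obtain ⟨i, hi, rfl⟩ := List.mem_iff_getElem.1 hb
  have h2 := hU i (by omega)
  rw [hT.top i] at h2
  simp only [Nat.not_lt_zero, decide_false, List.getD_eq_getElem?_getD, hi,
    List.getElem?_eq_getElem, Option.getD_some] at h2
  rw [h2] at hb'
  exact absurd hb' (by simp)

theorem no_strip' {N k : ℕ} {E : List (ℕ × ℕ)} {T : ℕ → ℕ → ℕ} (hT : Strip N E k T)
    (hk : 1 ≤ k) (z : ℕ) (hz : z ≤ k) (h : states N E z = []) : False := by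
  obtain ⟨s, hs, _⟩ := states_sound hT hk z hz
  rw [h] at hs
  exact absurd hs (by simp)

theorem states22 : states 4 [(0,1),(2,3),(0,2),(1,3)] 6 = [] := by
  decide +kernel

theorem states23 : (states 6 [(0,1),(1,2),(3,4),(4,5),(0,3),(1,4),(2,5)] 3).all
    (fun s => s.1.any (fun b => b)) = true := by
  decide +kernel

/-! ### From solutions to strips -/

/-- the shifted time function on layers -/
def mkT (b k : ℕ) (τ : Cube → ℕ) (z v : ℕ) : ℕ :=
  if 1 ≤ z ∧ z ≤ k then τ (v / b + 1, v % b + 1, z) + 1 else 0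

theorem mkT_pos {b k : ℕ} {τ : Cube → ℕ} {z v : ℕ} (h1 : 1 ≤ z) (h2 : z ≤ k) :
    mkT b k τ z v = τ (v / b + 1, v % b + 1, z) + 1 := by
  unfold mkT; rw [if_pos ⟨h1, h2⟩]

theorem ind_in {a b k : ℕ} {τ : Cube → ℕ} {c : Cube} {x y z : ℕ}
    (hx : 1 ≤ x ∧ x ≤ a) (hy : 1 ≤ y ∧ y ≤ b) (hz : 1 ≤ z ∧ z ≤ k) :
    ind a b k τ c (x, y, z) = if τ c < τ (x, y, z) then 1 else 0 := by
  unfold ind
  have : (x, y, z) ∈ box a b k := by
    simp only [box, Finset.mem_product, Finset.mem_Icc]; exact ⟨hx, hy, hz⟩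
  simp [this]

theorem ind_out {a b k : ℕ} {τ : Cube → ℕ} {c : Cube} {x y z : ℕ}
    (h : ¬ ((1 ≤ x ∧ x ≤ a) ∧ (1 ≤ y ∧ y ≤ b) ∧ (1 ≤ z ∧ z ≤ k))) :
    ind a b k τ c (x, y, z) = 0 := by
  unfold ind
  rw [if_neg]
  rintro ⟨h1, _⟩
  simp only [box, Finset.mem_product, Finset.mem_Icc] at h1
  exact h h1

theorem ind_up {a b k : ℕ} {τ : Cube → ℕ} {v z : ℕ} (hz : 1 ≤ z ∧ z ≤ k)
    (hx : v / b + 1 ≤ a) (hy : v % b + 1 ≤ b) :
    ind a b k τ (v / b + 1, v % b + 1, z) (v / b + 1, v % b + 1, z + 1) =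
      if mkT b k τ z v < mkT b k τ (z+1) v then 1 else 0 := by
  rw [mkT_pos hz.1 hz.2]
  by_cases h : z + 1 ≤ k
  · rw [ind_in ⟨Nat.le_add_left 1 _, hx⟩ ⟨Nat.le_add_left 1 _, hy⟩ ⟨by omega, h⟩,
      mkT_pos (by omega) h]
    simp
  · rw [ind_out (fun hc => h hc.2.2.2)]
    unfold mkT
    have h1 : ¬ (1 ≤ z + 1 ∧ z + 1 ≤ k) := fun hc => h hc.2
    rw [if_neg h1]
    simp

theorem ind_down {a b k : ℕ} {τ : Cube → ℕ} {v z : ℕ} (hz : 1 ≤ z ∧ z ≤ k)
    (hx : v / b + 1 ≤ a) (hy : v % b + 1 ≤ b) :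
    ind a b k τ (v / b + 1, v % b + 1, z) (v / b + 1, v % b + 1, z - 1) =
      if mkT b k τ z v < mkT b k τ (z-1) v then 1 else 0 := by
  rw [mkT_pos hz.1 hz.2]
  by_cases h : 1 ≤ z - 1
  · rw [ind_in ⟨Nat.le_add_left 1 _, hx⟩ ⟨Nat.le_add_left 1 _, hy⟩ ⟨h, by omega⟩,
      mkT_pos h (by omega)]
    simp
  · rw [ind_out (fun hc => h hc.2.2.1)]
    unfold mkT
    have h1 : ¬ (1 ≤ z - 1 ∧ z - 1 ≤ k) := fun hc => h hc.1
    rw [if_neg h1]
    simp

theorem nbr_layer {x y x' y' : ℕ} (h : Nbr (x, y, 0) (x', y', 0)) (z : ℕ) :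
    Nbr (x, y, z) (x', y', z) := by
  unfold Nbr at h ⊢
  simp only at h ⊢
  tauto

theorem nbr_up (x y z : ℕ) : Nbr (x, y, z) (x, y, z+1) := by
  unfold Nbr
  simp

theorem strip_of_solution {a b k : ℕ} {E : List (ℕ × ℕ)} (hb : 0 < b)
    (hE : ∀ e ∈ E, e.1 < a * b ∧ e.2 < a * b ∧
      Nbr (e.1 / b + 1, e.1 % b + 1, 0) (e.2 / b + 1, e.2 % b + 1, 0))
    (hcnt : ∀ (τ : Cube → ℕ) (z v : ℕ), 1 ≤ z → z ≤ k → v < a * b →
      cntE E (mkT b k τ z) v =
        ind a b k τ (v / b + 1, v % b + 1, z) (v / b + 1 + 1, v % b + 1, z) +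
        ind a b k τ (v / b + 1, v % b + 1, z) (v / b + 1 - 1, v % b + 1, z) +
        ind a b k τ (v / b + 1, v % b + 1, z) (v / b + 1, v % b + 1 + 1, z) +
        ind a b k τ (v / b + 1, v % b + 1, z) (v / b + 1, v % b + 1 - 1, z))
    (h : HasSolution a b k) : ∃ T, Strip (a * b) E k T := by
  obtain ⟨τ, hout, hne⟩ := time_of_solution h
  have hcell : ∀ v z, v < a * b → 1 ≤ z → z ≤ k → (v / b + 1, v % b + 1, z) ∈ box a b k := by
    intro v z hv h1 h2
    simp only [box, Finset.mem_product, Finset.mem_Icc]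
    have h3 : v / b < a := Nat.div_lt_of_lt_mul (by rwa [Nat.mul_comm] at hv)
    have h4 := Nat.mod_lt v hb
    generalize v / b = p at *
    generalize v % b = q at *
    omega
  refine ⟨mkT b k τ, ?_, ?_, ?_, ?_, ?_, ?_⟩
  · intro v; unfold mkT; rw [if_neg]; omega
  · intro v; unfold mkT; rw [if_neg]; omega
  · intro z v h1 h2 _
    rw [mkT_pos h1 h2]; omega
  · intro z h1 h2 e he
    obtain ⟨h3, h4, h5⟩ := hE e he
    rw [mkT_pos h1 h2, mkT_pos h1 h2]
    have h6 := hne _ (hcell e.1 z h3 h1 h2) _ (hcell e.2 z h4 h1 h2)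
      (nbr_layer h5 z)
    omega
  · intro z v h1 h2 hv
    rw [mkT_pos h1 h2.le, mkT_pos (by omega) (by omega)]
    have h6 := hne _ (hcell v z hv h1 h2.le) _ (hcell v (z+1) hv (by omega) (by omega))
      (nbr_up _ _ _)
    omega
  · intro z v h1 h2 hv
    have h3 : v / b < a := Nat.div_lt_of_lt_mul (by rwa [Nat.mul_comm] at hv)
    have h4 := Nat.mod_lt v hb
    have h5 := hout _ (hcell v z hv h1 h2)
    rw [outc_eq τ (hcell v z hv h1 h2), ind_up ⟨h1, h2⟩ (by omega) (by omega),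
      ind_down ⟨h1, h2⟩ (by omega) (by omega), ← hcnt τ z v h1 h2 hv] at h5
    omega

theorem strip22 {k : ℕ} (h : HasSolution 2 2 k) :
    ∃ T, Strip 4 [(0,1),(2,3),(0,2),(1,3)] k T := by
  refine strip_of_solution (a := 2) (b := 2) (by norm_num) ?_ ?_ h
  · decide
  · intro τ z v h1 h2 hv
    interval_cases v <;>
    (simp [cntE, mkT_pos h1 h2, ind, box, h1, h2]; try ring)

theorem strip23 {k : ℕ} (h : HasSolution 2 3 k) :
    ∃ T, Strip 6 [(0,1),(1,2),(3,4),(4,5),(0,3),(1,4),(2,5)] k T := by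
  refine strip_of_solution (a := 2) (b := 3) (by norm_num) ?_ ?_ h
  · decide
  · intro τ z v h1 h2 hv
    interval_cases v <;>
    (simp [cntE, mkT_pos h1 h2, ind, box, h1, h2]; try ring)

/-! ### Explicit periodic dismantlings -/

/-- deletion time coded by a phase `e.1` and an offset `e.2`; even phases sweep upwards, odd
phases sweep downwards -/
def val (k z : ℕ) (e : ℕ × ℕ) : ℕ :=
  40 * (k * e.1) + (if e.1 % 2 = 0 then 10 * z + e.2 else 10 * (k - z) + e.2)

def lts (e e' : ℕ × ℕ) : Bool := e.1 < e'.1 || (e.1 == e'.1 && e.2 < e'.2)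

def ltu (e e' : ℕ × ℕ) : Bool :=
  e.1 < e'.1 || (e.1 == e'.1 && (if e.1 % 2 = 0 then e.2 < e'.2 + 10 else e.2 + 10 < e'.2))

def ltd (e e' : ℕ × ℕ) : Bool :=
  e.1 < e'.1 || (e.1 == e'.1 && (if e.1 % 2 = 0 then e.2 + 10 < e'.2 else e.2 < e'.2 + 10))

theorem val_lt_of_phase {k z z' : ℕ} {e e' : ℕ × ℕ} (hk : 1 ≤ k) (hz : z ≤ k)
    (h1 : e.2 ≤ 25) (h : e.1 < e'.1) : val k z e < val k z' e' := by
  unfold val
  obtain ⟨d, hd⟩ := Nat.exists_eq_add_of_lt h
  rw [hd]
  have h3 : k * (e.1 + d + 1) = k * e.1 + k * d + k := by ring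
  rw [h3]
  generalize k * e.1 = A
  generalize k * d = B
  have h4 : (if e.1 % 2 = 0 then 10 * z + e.2 else 10 * (k - z) + e.2) < 40 * k := by
    split_ifs <;> omega
  generalize (if e.1 % 2 = 0 then 10 * z + e.2 else 10 * (k - z) + e.2) = C at *
  omega

theorem lts_iff {k z : ℕ} {e e' : ℕ × ℕ} (hk : 1 ≤ k) (hz : z ≤ k)
    (h1 : e.2 ≤ 25) (h2 : e'.2 ≤ 25) : val k z e < val k z e' ↔ lts e e' = true := by
  rcases lt_trichotomy e.1 e'.1 with h | h | h
  · have := val_lt_of_phase (z' := z) hk hz h1 h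
    simp [lts, h, this]
  · simp only [lts, h, val, lt_self_iff_false, decide_false, BEq.rfl, Bool.true_and,
      Bool.false_or, decide_eq_true_eq]
    split_ifs <;> omega
  · have := val_lt_of_phase (z' := z) hk hz h2 h
    have h3 : ¬ (val k z e < val k z e') := by omega
    have h4 : ¬ (e.1 < e'.1) := by omega
    have h5 : ¬ (e.1 = e'.1) := by omega
    simp [lts, h3, h4, h5]

theorem ltu_iff {k z : ℕ} {e e' : ℕ × ℕ} (hk : 1 ≤ k) (hz : z + 1 ≤ k)
    (h1 : e.2 ≤ 25) (h2 : e'.2 ≤ 25) : val k z e < val k (z+1) e' ↔ ltu e e' = true := by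
  rcases lt_trichotomy e.1 e'.1 with h | h | h
  · have := val_lt_of_phase (z := z) (z' := z+1) hk (by omega) h1 h
    simp [ltu, h, this]
  · simp only [ltu, h, val, lt_self_iff_false, decide_false, BEq.rfl, Bool.true_and,
      Bool.false_or]
    split_ifs <;> simp only [decide_eq_true_eq] <;> omega
  · have := val_lt_of_phase (z' := z) hk (by omega) h2 h
    have h3 : ¬ (val k z e < val k (z+1) e') := by
      have := val_lt_of_phase (z := z+1) (z' := z) hk (by omega) h2 h
      omega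
    have h4 : ¬ (e.1 < e'.1) := by omega
    have h5 : ¬ (e.1 = e'.1) := by omega
    simp [ltu, h3, h4, h5]

theorem ltd_iff {k z : ℕ} {e e' : ℕ × ℕ} (hk : 1 ≤ k) (hz : z + 1 ≤ k)
    (h1 : e.2 ≤ 25) (h2 : e'.2 ≤ 25) : val k (z+1) e < val k z e' ↔ ltd e e' = true := by
  rcases lt_trichotomy e.1 e'.1 with h | h | h
  · have := val_lt_of_phase (z' := z) hk hz h1 h
    simp [ltd, h, this]
  · simp only [ltd, h, val, lt_self_iff_false, decide_false, BEq.rfl, Bool.true_and,
      Bool.false_or]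
    split_ifs <;> simp only [decide_eq_true_eq] <;> omega
  · have h3 : ¬ (val k (z+1) e < val k z e') := by
      have := val_lt_of_phase (z := z) (z' := z+1) hk (by omega) h2 h
      omega
    have h4 : ¬ (e.1 < e'.1) := by omega
    have h5 : ¬ (e.1 = e'.1) := by omega
    simp [ltd, h3, h4, h5]

abbrev Tab := ℕ → ℕ → ℕ → ℕ × ℕ

/-- number of larger neighbours, computed from a table of types; `99` codes `outside` -/
def cntT (tab : Tab) (a b : ℕ) (t0 t t2 x y : ℕ) : ℕ :=
  (if x + 1 ≤ a ∧ lts (tab t x y) (tab t (x+1) y) then 1 else 0) +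
  (if 1 ≤ x - 1 ∧ lts (tab t x y) (tab t (x-1) y) then 1 else 0) +
  (if y + 1 ≤ b ∧ lts (tab t x y) (tab t x (y+1)) then 1 else 0) +
  (if 1 ≤ y - 1 ∧ lts (tab t x y) (tab t x (y-1)) then 1 else 0) +
  (if t2 ≠ 99 ∧ ltu (tab t x y) (tab t2 x y) then 1 else 0) +
  (if t0 ≠ 99 ∧ ltd (tab t x y) (tab t0 x y) then 1 else 0)

/-- local validity of a triple of consecutive types -/
def okT (tab : Tab) (a b : ℕ) (p : ℕ × ℕ × ℕ) : Prop :=
  ∀ x ∈ Finset.Icc 1 a, ∀ y ∈ Finset.Icc 1 b,
    (cntT tab a b p.1 p.2.1 p.2.2 x y = 0 ∨ cntT tab a b p.1 p.2.1 p.2.2 x y = 3) ∧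
    (tab p.2.1 x y).2 ≤ 25 ∧
    (x + 1 ≤ a → lts (tab p.2.1 x y) (tab p.2.1 (x+1) y) ∨
      lts (tab p.2.1 (x+1) y) (tab p.2.1 x y)) ∧
    (y + 1 ≤ b → lts (tab p.2.1 x y) (tab p.2.1 x (y+1)) ∨
      lts (tab p.2.1 x (y+1)) (tab p.2.1 x y)) ∧
    (p.2.2 ≠ 99 → ltu (tab p.2.1 x y) (tab p.2.2 x y) ∨
      ltd (tab p.2.2 x y) (tab p.2.1 x y))

instance (tab : Tab) (a b : ℕ) (p : ℕ × ℕ × ℕ) : Decidable (okT tab a b p) := by
  unfold okT; infer_instance

def tyx (ty : ℕ → ℕ → ℕ) (k z : ℕ) : ℕ := if 1 ≤ z ∧ z ≤ k then ty k z else 99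

theorem solution_of_table {a b k : ℕ} (tab : Tab) (ty : ℕ → ℕ → ℕ) (hk : 1 ≤ k)
    (hty : ∀ z, 1 ≤ z → z ≤ k → ty k z ≠ 99)
    (hok : ∀ z, 1 ≤ z → z ≤ k → okT tab a b (tyx ty k (z-1), tyx ty k z, tyx ty k (z+1))) :
    HasSolution a b k := by
  have hin : ∀ z, 1 ≤ z → z ≤ k → tyx ty k z = ty k z := fun z h1 h2 => by
    unfold tyx; rw [if_pos ⟨h1, h2⟩]
  have hout : ∀ z, ¬ (1 ≤ z ∧ z ≤ k) → tyx ty k z = 99 := fun z h => by
    unfold tyx; rw [if_neg h]
  have hoff : ∀ x y z, 1 ≤ x → x ≤ a → 1 ≤ y → y ≤ b → 1 ≤ z → z ≤ k →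
      (tab (ty k z) x y).2 ≤ 25 := by
    intro x y z hx1 hx2 hy1 hy2 hz1 hz2
    have := (hok z hz1 hz2 x (Finset.mem_Icc.2 ⟨hx1, hx2⟩) y (Finset.mem_Icc.2 ⟨hy1, hy2⟩)).2.1
    simp only [hin z hz1 hz2] at this
    exact this
  let τ : Cube → ℕ := fun c => val k c.2.2 (tab (ty k c.2.2) c.1 c.2.1)
  apply solution_of_time τ
  · rintro ⟨x, y, z⟩ hc
    rw [outc_eq τ hc]
    simp only [box, Finset.mem_product, Finset.mem_Icc] at hc
    obtain ⟨⟨hx1, hx2⟩, ⟨hy1, hy2⟩, ⟨hz1, hz2⟩⟩ := hc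
    have h := (hok z hz1 hz2 x (Finset.mem_Icc.2 ⟨hx1, hx2⟩) y
      (Finset.mem_Icc.2 ⟨hy1, hy2⟩)).1
    simp only [hin z hz1 hz2] at h
    have ho := hoff x y z hx1 hx2 hy1 hy2 hz1 hz2
    have e1 : ind a b k τ (x, y, z) (x+1, y, z) =
        (if x + 1 ≤ a ∧ lts (tab (ty k z) x y) (tab (ty k z) (x+1) y) then 1 else 0) := by
      by_cases hh : x + 1 ≤ a
      · rw [ind_in ⟨by omega, hh⟩ ⟨hy1, hy2⟩ ⟨hz1, hz2⟩]
        have := lts_iff (z := z) hk hz2 ho (hoff (x+1) y z (by omega) hh hy1 hy2 hz1 hz2)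
        simp only [τ, this, hh, true_and]
      · rw [ind_out (fun hc => hh hc.1.2), if_neg (fun hc => hh hc.1)]
    have e2 : ind a b k τ (x, y, z) (x-1, y, z) =
        (if 1 ≤ x - 1 ∧ lts (tab (ty k z) x y) (tab (ty k z) (x-1) y) then 1 else 0) := by
      by_cases hh : 1 ≤ x - 1
      · rw [ind_in ⟨hh, by omega⟩ ⟨hy1, hy2⟩ ⟨hz1, hz2⟩]
        have := lts_iff (z := z) hk hz2 ho (hoff (x-1) y z hh (by omega) hy1 hy2 hz1 hz2)
        simp only [τ, this, hh, true_and]
      · rw [ind_out (fun hc => hh hc.1.1), if_neg (fun hc => hh hc.1)]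
    have e3 : ind a b k τ (x, y, z) (x, y+1, z) =
        (if y + 1 ≤ b ∧ lts (tab (ty k z) x y) (tab (ty k z) x (y+1)) then 1 else 0) := by
      by_cases hh : y + 1 ≤ b
      · rw [ind_in ⟨hx1, hx2⟩ ⟨by omega, hh⟩ ⟨hz1, hz2⟩]
        have := lts_iff (z := z) hk hz2 ho (hoff x (y+1) z hx1 hx2 (by omega) hh hz1 hz2)
        simp only [τ, this, hh, true_and]
      · rw [ind_out (fun hc => hh hc.2.1.2), if_neg (fun hc => hh hc.1)]
    have e4 : ind a b k τ (x, y, z) (x, y-1, z) =
        (if 1 ≤ y - 1 ∧ lts (tab (ty k z) x y) (tab (ty k z) x (y-1)) then 1 else 0) := by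
      by_cases hh : 1 ≤ y - 1
      · rw [ind_in ⟨hx1, hx2⟩ ⟨hh, by omega⟩ ⟨hz1, hz2⟩]
        have := lts_iff (z := z) hk hz2 ho (hoff x (y-1) z hx1 hx2 hh (by omega) hz1 hz2)
        simp only [τ, this, hh, true_and]
      · rw [ind_out (fun hc => hh hc.2.1.1), if_neg (fun hc => hh hc.1)]
    have e5 : ind a b k τ (x, y, z) (x, y, z+1) =
        (if tyx ty k (z+1) ≠ 99 ∧ ltu (tab (ty k z) x y) (tab (tyx ty k (z+1)) x y)
          then 1 else 0) := by
      by_cases hh : z + 1 ≤ k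
      · rw [ind_in ⟨hx1, hx2⟩ ⟨hy1, hy2⟩ ⟨by omega, hh⟩, hin (z+1) (by omega) hh]
        have := ltu_iff (z := z) hk hh ho (hoff x y (z+1) hx1 hx2 hy1 hy2 (by omega) hh)
        have h99 := hty (z+1) (by omega) hh
        simp only [τ, this, h99, ne_eq, not_false_eq_true, true_and]
      · rw [ind_out (fun hc => hh hc.2.2.2), hout (z+1) (fun hc => hh hc.2)]
        simp
    have e6 : ind a b k τ (x, y, z) (x, y, z-1) =
        (if tyx ty k (z-1) ≠ 99 ∧ ltd (tab (ty k z) x y) (tab (tyx ty k (z-1)) x y)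
          then 1 else 0) := by
      by_cases hh : 1 ≤ z - 1
      · rw [ind_in ⟨hx1, hx2⟩ ⟨hy1, hy2⟩ ⟨hh, by omega⟩, hin (z-1) hh (by omega)]
        obtain ⟨w, rfl⟩ : ∃ w, z = w + 1 := ⟨z - 1, by omega⟩
        simp only [Nat.add_sub_cancel] at hh ⊢
        have := ltd_iff (z := w) hk hz2 ho (hoff x y w hx1 hx2 hy1 hy2 hh (by omega))
        have h99 := hty w hh (by omega)
        simp only [τ, this, h99, ne_eq, not_false_eq_true, true_and]
      · rw [ind_out (fun hc => hh hc.2.2.1), hout (z-1) (fun hc => hh hc.1)]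
        simp
    rw [e1, e2, e3, e4, e5, e6]
    exact h
  · -- distinctness
    have hd : ∀ c ∈ box a b k, ∀ d ∈ box a b k,
        ((d.1 = c.1 + 1 ∧ c.2.1 = d.2.1 ∧ c.2.2 = d.2.2) ∨
        (c.1 = d.1 ∧ d.2.1 = c.2.1 + 1 ∧ c.2.2 = d.2.2) ∨
        (c.1 = d.1 ∧ c.2.1 = d.2.1 ∧ d.2.2 = c.2.2 + 1)) → τ c ≠ τ d := by
      rintro ⟨x, y, z⟩ hc ⟨x', y', z'⟩ hc' hn
      simp only [box, Finset.mem_product, Finset.mem_Icc] at hc hc'
      obtain ⟨⟨hx1, hx2⟩, ⟨hy1, hy2⟩, ⟨hz1, hz2⟩⟩ := hc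
      obtain ⟨⟨hx1', hx2'⟩, ⟨hy1', hy2'⟩, ⟨hz1', hz2'⟩⟩ := hc'
      have h := (hok z hz1 hz2 x (Finset.mem_Icc.2 ⟨hx1, hx2⟩) y
        (Finset.mem_Icc.2 ⟨hy1, hy2⟩)).2.2
      simp only [hin z hz1 hz2] at h
      have ho := hoff x y z hx1 hx2 hy1 hy2 hz1 hz2
      have ho' := hoff x' y' z' hx1' hx2' hy1' hy2' hz1' hz2'
      simp only at hn
      rcases hn with ⟨rfl, rfl, rfl⟩ | ⟨rfl, rfl, rfl⟩ | ⟨rfl, rfl, rfl⟩
      · have h1 := h.1 hx2'
        rw [← lts_iff (z := z) hk hz2 ho ho', ← lts_iff (z := z) hk hz2 ho' ho] at h1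
        simp only [τ]
        omega
      · have h1 := h.2.1 hy2'
        rw [← lts_iff (z := z) hk hz2 ho ho', ← lts_iff (z := z) hk hz2 ho' ho] at h1
        simp only [τ]
        omega
      · have h1 := h.2.2
        rw [hin (z+1) hz1' hz2'] at h1
        have h2 := h1 (hty (z+1) hz1' hz2')
        rw [← ltu_iff (z := z) hk hz2' ho ho', ← ltd_iff (z := z) hk hz2' ho' ho] at h2
        simp only [τ]
        omega
    intro c hc d hdd hn
    rcases hn with ⟨h1 | h1, h2, h3⟩ | ⟨h1, h2 | h2, h3⟩ | ⟨h1, h2, h3 | h3⟩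
    · exact hd c hc d hdd (Or.inl ⟨h1, h2, h3⟩)
    · exact (hd d hdd c hc (Or.inl ⟨h1, h2.symm, h3.symm⟩)).symm
    · exact hd c hc d hdd (Or.inr (Or.inl ⟨h1, h2, h3⟩))
    · exact (hd d hdd c hc (Or.inr (Or.inl ⟨h1.symm, h2, h3.symm⟩))).symm
    · exact hd c hc d hdd (Or.inr (Or.inr ⟨h1, h2, h3⟩))
    · exact (hd d hdd c hc (Or.inr (Or.inr ⟨h1.symm, h2.symm, h3⟩))).symm

def tabF : Tab := fun t x y =>
  match t, x, y with
  | 0, 1, 2 => (2, 0)
  | 0, 2, 1 => (2, 0)
  | 0, 2, 2 => (1, 15)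
  | 0, 2, 3 => (1, 1)
  | 0, 3, 2 => (1, 1)
  | 0, 3, 3 => (1, 0)
  | 1, 1, 1 => (0, 0)
  | 1, 1, 3 => (0, 0)
  | 1, 2, 2 => (1, 15)
  | 1, 2, 3 => (1, 2)
  | 1, 3, 1 => (0, 0)
  | 1, 3, 2 => (1, 2)
  | 2, 1, 1 => (0, 0)
  | 2, 1, 2 => (0, 1)
  | 2, 2, 1 => (0, 1)
  | 2, 2, 3 => (0, 1)
  | 2, 3, 2 => (0, 1)
  | 2, 3, 3 => (0, 0)
  | 3, 1, 1 => (0, 0)
  | 3, 1, 3 => (0, 2)
  | 3, 2, 2 => (1, 15)
  | 3, 2, 3 => (0, 1)
  | 3, 3, 1 => (0, 2)
  | 3, 3, 2 => (0, 1)
  | 3, 3, 3 => (0, 0)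
  | 4, 1, 1 => (0, 0)
  | 4, 1, 2 => (0, 1)
  | 4, 1, 3 => (0, 0)
  | 4, 2, 1 => (0, 1)
  | 4, 2, 2 => (1, 15)
  | 4, 3, 1 => (0, 0)
  | 4, 3, 3 => (0, 0)
  | 5, 1, 1 => (0, 0)
  | 5, 1, 2 => (0, 1)
  | 5, 1, 3 => (0, 2)
  | 5, 2, 1 => (0, 1)
  | 5, 2, 2 => (1, 15)
  | 5, 3, 1 => (0, 2)
  | 5, 3, 3 => (0, 0)
  | 6, 1, 1 => (0, 0)
  | 6, 1, 2 => (0, 1)
  | 6, 2, 1 => (0, 1)
  | 6, 2, 2 => (1, 15)
  | 6, 2, 3 => (2, 0)
  | 6, 3, 2 => (2, 0)
  | 6, 3, 3 => (0, 0)
  | _, _, _ => (9, 0)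

def tabG1 : Tab := fun t x y =>
  match t, x, y with
  | 0, 1, 1 => (0, 0)
  | 0, 1, 2 => (2, 0)
  | 0, 2, 1 => (0, 1)
  | 0, 2, 3 => (1, 0)
  | 1, 1, 1 => (0, 0)
  | 1, 1, 3 => (2, 0)
  | 1, 2, 2 => (2, 11)
  | 1, 2, 3 => (1, 0)
  | 2, 1, 1 => (0, 0)
  | 2, 1, 2 => (2, 2)
  | 2, 2, 1 => (0, 1)
  | 2, 2, 2 => (2, 0)
  | 2, 2, 3 => (1, 0)
  | 3, 1, 1 => (0, 0)
  | 3, 1, 3 => (2, 0)
  | 3, 2, 2 => (2, 1)
  | 3, 2, 3 => (1, 0)
  | 4, 1, 1 => (0, 0)
  | 4, 1, 2 => (2, 12)
  | 4, 2, 1 => (0, 1)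
  | 4, 2, 3 => (1, 0)
  | 5, 1, 1 => (0, 0)
  | 5, 1, 2 => (2, 1)
  | 5, 1, 3 => (2, 0)
  | 5, 2, 2 => (2, 3)
  | 5, 2, 3 => (1, 0)
  | 6, 1, 2 => (2, 0)
  | 6, 2, 1 => (0, 0)
  | 6, 2, 3 => (1, 0)
  | 7, 1, 1 => (0, 0)
  | 7, 1, 3 => (2, 0)
  | 7, 2, 2 => (2, 11)
  | _, _, _ => (9, 0)

def tabG2 : Tab := fun t x y =>
  match t, x, y with
  | 0, 1, 1 => (2, 0)
  | 0, 1, 3 => (2, 1)
  | 0, 2, 2 => (2, 2)
  | 0, 2, 3 => (1, 0)
  | 1, 1, 1 => (2, 0)
  | 1, 1, 2 => (2, 13)
  | 1, 2, 1 => (2, 1)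
  | 1, 2, 3 => (1, 0)
  | 2, 1, 1 => (2, 0)
  | 2, 1, 2 => (2, 2)
  | 2, 1, 3 => (2, 1)
  | 2, 2, 2 => (2, 4)
  | 2, 2, 3 => (1, 0)
  | 3, 1, 1 => (2, 0)
  | 3, 1, 2 => (2, 1)
  | 3, 2, 1 => (2, 2)
  | 3, 2, 3 => (1, 0)
  | 4, 1, 1 => (2, 0)
  | 4, 1, 3 => (2, 1)
  | 4, 2, 2 => (2, 13)
  | 4, 2, 3 => (1, 0)
  | 5, 1, 1 => (2, 0)
  | 5, 1, 2 => (2, 4)
  | 5, 2, 1 => (2, 1)
  | 5, 2, 2 => (2, 2)
  | 5, 2, 3 => (1, 0)
  | 6, 1, 2 => (2, 0)
  | 6, 2, 1 => (0, 0)
  | 6, 2, 3 => (1, 0)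
  | 7, 1, 2 => (2, 23)
  | 7, 2, 1 => (0, 0)
  | 7, 2, 3 => (0, 0)
  | 8, 1, 1 => (0, 1)
  | 8, 1, 2 => (2, 12)
  | 8, 1, 3 => (2, 14)
  | 8, 2, 1 => (0, 0)
  | 8, 2, 2 => (2, 11)
  | 9, 1, 2 => (2, 5)
  | 9, 2, 1 => (0, 0)
  | 9, 2, 2 => (2, 0)
  | 9, 2, 3 => (1, 0)
  | 10, 1, 1 => (2, 13)
  | 10, 1, 3 => (2, 0)
  | 10, 2, 2 => (2, 1)
  | 10, 2, 3 => (1, 0)
  | 11, 1, 1 => (2, 2)
  | 11, 1, 2 => (2, 4)
  | 11, 2, 1 => (2, 1)
  | 11, 2, 2 => (2, 0)
  | 11, 2, 3 => (1, 0)
  | _, _, _ => (9, 0)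

def tyF (k z : ℕ) : ℕ :=
  if z = k then 0 else if z + 1 = k then 1 else if z = 1 then 2
  else if k % 2 = 1 ∧ z = 2 then 3 else if k % 2 = 1 ∧ z = 3 then 4
  else if (k - z) % 2 = 0 then 5 else 6

def tyG1 (k z : ℕ) : ℕ := if z = k then 6 else if z = 1 then 7 else z % 6

def tyG2 (k z : ℕ) : ℕ := if z = k then 6 else if z ≤ 5 then 6 + z else z % 6

theorem okF : ∀ p ∈ [(1, 0, 99), (2, 3, 4), (2, 5, 1), (2, 5, 6), (3, 4, 1), (3, 4, 6),
    (4, 1, 0), (4, 6, 5), (5, 1, 0), (5, 6, 5), (6, 5, 1), (6, 5, 6), (99, 2, 3), (99, 2, 5)],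
    okT tabF 3 3 p := by
  decide +kernel

theorem okG1 : ∀ p ∈ [(0, 1, 2), (1, 2, 3), (2, 3, 4), (3, 4, 5), (4, 5, 0), (4, 5, 6),
    (5, 0, 1), (5, 6, 99), (7, 2, 3), (99, 7, 2)], okT tabG1 2 3 p := by
  decide +kernel

theorem okG2 : ∀ p ∈ [(0, 1, 2), (1, 2, 3), (1, 2, 6), (2, 3, 4), (2, 6, 99), (3, 4, 5),
    (4, 5, 0), (5, 0, 1), (7, 8, 9), (8, 9, 10), (9, 10, 11), (10, 11, 0), (11, 0, 1),
    (99, 7, 8)], okT tabG2 2 3 p := by
  decide +kernel

theorem mem3 {l : List (ℕ × ℕ × ℕ)} {a b c a' b' c' : ℕ} (h : (a', b', c') ∈ l) (h1 : a = a')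
    (h2 : b = b') (h3 : c = c') : (a, b, c) ∈ l := by
  subst h1 h2 h3; exact h

theorem sol_F {k : ℕ} (hk : 4 ≤ k) : HasSolution 3 3 k := by
  refine solution_of_table tabF tyF (by omega) ?_ ?_
  · intro z _ _
    unfold tyF
    split_ifs <;> omega
  · intro z h1 h2
    apply okF
    unfold tyx tyF
    rcases Nat.lt_or_ge z 4 with h4 | h4
    · interval_cases z
      · rcases Nat.mod_two_eq_zero_or_one k with h | h
        · refine mem3 (a' := 99) (b' := 2) (c' := 5) (by decide) ?_ ?_ ?_ <;>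
            (repeat' split_ifs) <;> omega
        · refine mem3 (a' := 99) (b' := 2) (c' := 3) (by decide) ?_ ?_ ?_ <;>
            (repeat' split_ifs) <;> omega
      · rcases Nat.mod_two_eq_zero_or_one k with h | h
        · by_cases h5 : k = 4
          · refine mem3 (a' := 2) (b' := 5) (c' := 1) (by decide) ?_ ?_ ?_ <;>
              (repeat' split_ifs) <;> omega
          · refine mem3 (a' := 2) (b' := 5) (c' := 6) (by decide) ?_ ?_ ?_ <;>
              (repeat' split_ifs) <;> omega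
        · refine mem3 (a' := 2) (b' := 3) (c' := 4) (by decide) ?_ ?_ ?_ <;>
            (repeat' split_ifs) <;> omega
      · rcases Nat.mod_two_eq_zero_or_one k with h | h
        · by_cases h5 : k = 4
          · refine mem3 (a' := 5) (b' := 1) (c' := 0) (by decide) ?_ ?_ ?_ <;>
              (repeat' split_ifs) <;> omega
          · refine mem3 (a' := 5) (b' := 6) (c' := 5) (by decide) ?_ ?_ ?_ <;>
              (repeat' split_ifs) <;> omega
        · by_cases h5 : k = 5
          · refine mem3 (a' := 3) (b' := 4) (c' := 1) (by decide) ?_ ?_ ?_ <;>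
              (repeat' split_ifs) <;> omega
          · refine mem3 (a' := 3) (b' := 4) (c' := 6) (by decide) ?_ ?_ ?_ <;>
              (repeat' split_ifs) <;> omega
    · by_cases e0 : z = k
      · refine mem3 (a' := 1) (b' := 0) (c' := 99) (by decide) ?_ ?_ ?_ <;>
          (repeat' split_ifs) <;> omega
      · by_cases e1 : z + 1 = k
        · by_cases e2 : z = 4 ∧ k % 2 = 1
          · refine mem3 (a' := 4) (b' := 1) (c' := 0) (by decide) ?_ ?_ ?_ <;>
              (repeat' split_ifs) <;> omega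
          · refine mem3 (a' := 5) (b' := 1) (c' := 0) (by decide) ?_ ?_ ?_ <;>
              (repeat' split_ifs) <;> omega
        · by_cases e3 : (k - z) % 2 = 0
          · by_cases e4 : z + 2 = k
            · refine mem3 (a' := 6) (b' := 5) (c' := 1) (by decide) ?_ ?_ ?_ <;>
                (repeat' split_ifs) <;> omega
            · refine mem3 (a' := 6) (b' := 5) (c' := 6) (by decide) ?_ ?_ ?_ <;>
                (repeat' split_ifs) <;> omega
          · by_cases e5 : z = 4 ∧ k % 2 = 1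
            · refine mem3 (a' := 4) (b' := 6) (c' := 5) (by decide) ?_ ?_ ?_ <;>
                (repeat' split_ifs) <;> omega
            · refine mem3 (a' := 5) (b' := 6) (c' := 5) (by decide) ?_ ?_ ?_ <;>
                (repeat' split_ifs) <;> omega

theorem sol_G1 {k : ℕ} (hk : 6 ≤ k) (h6 : k % 6 = 0) : HasSolution 2 3 k := by
  refine solution_of_table tabG1 tyG1 (by omega) ?_ ?_
  · intro z _ _
    unfold tyG1
    split_ifs <;> omega
  · intro z h1 h2
    apply okG1
    unfold tyx tyG1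
    by_cases e0 : z = k
    · refine mem3 (a' := 5) (b' := 6) (c' := 99) (by decide) ?_ ?_ ?_ <;>
        (repeat' split_ifs) <;> omega
    · by_cases e1 : z + 1 = k
      · refine mem3 (a' := 4) (b' := 5) (c' := 6) (by decide) ?_ ?_ ?_ <;>
          (repeat' split_ifs) <;> omega
      · by_cases e2 : z = 1
        · refine mem3 (a' := 99) (b' := 7) (c' := 2) (by decide) ?_ ?_ ?_ <;>
            (repeat' split_ifs) <;> omega
        · by_cases e3 : z = 2
          · refine mem3 (a' := 7) (b' := 2) (c' := 3) (by decide) ?_ ?_ ?_ <;>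
              (repeat' split_ifs) <;> omega
          · have hr : z % 6 = 0 ∨ z % 6 = 1 ∨ z % 6 = 2 ∨ z % 6 = 3 ∨ z % 6 = 4 ∨ z % 6 = 5 := by
              omega
            rcases hr with r | r | r | r | r | r
            · refine mem3 (a' := 5) (b' := 0) (c' := 1) (by decide) ?_ ?_ ?_ <;>
                (repeat' split_ifs) <;> omega
            · refine mem3 (a' := 0) (b' := 1) (c' := 2) (by decide) ?_ ?_ ?_ <;>
                (repeat' split_ifs) <;> omega
            · refine mem3 (a' := 1) (b' := 2) (c' := 3) (by decide) ?_ ?_ ?_ <;>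
                (repeat' split_ifs) <;> omega
            · refine mem3 (a' := 2) (b' := 3) (c' := 4) (by decide) ?_ ?_ ?_ <;>
                (repeat' split_ifs) <;> omega
            · refine mem3 (a' := 3) (b' := 4) (c' := 5) (by decide) ?_ ?_ ?_ <;>
                (repeat' split_ifs) <;> omega
            · refine mem3 (a' := 4) (b' := 5) (c' := 0) (by decide) ?_ ?_ ?_ <;>
                (repeat' split_ifs) <;> omega

theorem sol_G2 {k : ℕ} (hk : 9 ≤ k) (h6 : k % 6 = 3) : HasSolution 2 3 k := by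
  refine solution_of_table tabG2 tyG2 (by omega) ?_ ?_
  · intro z _ _
    unfold tyG2
    split_ifs <;> omega
  · intro z h1 h2
    apply okG2
    unfold tyx tyG2
    by_cases e0 : z = k
    · refine mem3 (a' := 2) (b' := 6) (c' := 99) (by decide) ?_ ?_ ?_ <;>
        (repeat' split_ifs) <;> omega
    · by_cases e1 : z + 1 = k
      · refine mem3 (a' := 1) (b' := 2) (c' := 6) (by decide) ?_ ?_ ?_ <;>
          (repeat' split_ifs) <;> omega
      · rcases Nat.lt_or_ge z 7 with h7 | h7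
        · have hr : z = 1 ∨ z = 2 ∨ z = 3 ∨ z = 4 ∨ z = 5 ∨ z = 6 := by omega
          rcases hr with r | r | r | r | r | r
          · refine mem3 (a' := 99) (b' := 7) (c' := 8) (by decide) ?_ ?_ ?_ <;>
              (repeat' split_ifs) <;> omega
          · refine mem3 (a' := 7) (b' := 8) (c' := 9) (by decide) ?_ ?_ ?_ <;>
              (repeat' split_ifs) <;> omega
          · refine mem3 (a' := 8) (b' := 9) (c' := 10) (by decide) ?_ ?_ ?_ <;>
              (repeat' split_ifs) <;> omega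
          · refine mem3 (a' := 9) (b' := 10) (c' := 11) (by decide) ?_ ?_ ?_ <;>
              (repeat' split_ifs) <;> omega
          · refine mem3 (a' := 10) (b' := 11) (c' := 0) (by decide) ?_ ?_ ?_ <;>
              (repeat' split_ifs) <;> omega
          · refine mem3 (a' := 11) (b' := 0) (c' := 1) (by decide) ?_ ?_ ?_ <;>
              (repeat' split_ifs) <;> omega
        · have hr : z % 6 = 0 ∨ z % 6 = 1 ∨ z % 6 = 2 ∨ z % 6 = 3 ∨ z % 6 = 4 ∨ z % 6 = 5 := by
            omega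
          rcases hr with r | r | r | r | r | r
          · refine mem3 (a' := 5) (b' := 0) (c' := 1) (by decide) ?_ ?_ ?_ <;>
              (repeat' split_ifs) <;> omega
          · refine mem3 (a' := 0) (b' := 1) (c' := 2) (by decide) ?_ ?_ ?_ <;>
              (repeat' split_ifs) <;> omega
          · refine mem3 (a' := 1) (b' := 2) (c' := 3) (by decide) ?_ ?_ ?_ <;>
              (repeat' split_ifs) <;> omega
          · refine mem3 (a' := 2) (b' := 3) (c' := 4) (by decide) ?_ ?_ ?_ <;>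
              (repeat' split_ifs) <;> omega
          · refine mem3 (a' := 3) (b' := 4) (c' := 5) (by decide) ?_ ?_ ?_ <;>
              (repeat' split_ifs) <;> omega
          · refine mem3 (a' := 4) (b' := 5) (c' := 0) (by decide) ?_ ?_ ?_ <;>
              (repeat' split_ifs) <;> omega

/-! ### Small boxes -/

/-- deletion times read off an explicit list of moves -/
def listTime (l : List Cube) (c : Cube) : ℕ := l.idxOf c

theorem sol_222 : HasSolution 2 2 2 := by
  refine solution_of_time (listTime [(1,1,1), (2,2,1), (1,2,2), (2,1,2)]) ?_ ?_ <;>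
    decide +kernel

theorem sol_225 : HasSolution 2 2 5 := by
  refine solution_of_time (listTime [(1,1,1), (2,2,1), (1,1,2), (1,2,2), (2,1,2), (1,1,3),
    (1,1,5), (2,2,5), (2,2,4), (2,2,3), (1,2,4), (2,1,4)]) ?_ ?_ <;>
    decide +kernel

theorem sol_331 : HasSolution 3 3 1 := by
  refine solution_of_time (listTime [(1,2,1), (2,1,1), (2,3,1), (3,2,1)]) ?_ ?_ <;>
    decide +kernel

theorem sol_333 : HasSolution 3 3 3 := by
  refine solution_of_time (listTime [(1,1,1), (1,2,1), (2,1,1), (3,3,1), (2,3,1), (3,2,1),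
    (1,1,2), (3,3,3), (2,3,3), (2,3,2), (1,3,2), (3,2,3), (3,2,2), (3,1,2), (2,2,3), (2,2,2),
    (1,2,3), (2,1,3)]) ?_ ?_ <;>
    decide +kernel

/-! ### Exchanging the first and the last coordinate -/

def swp (c : Cube) : Cube := (c.2.2, c.2.1, c.1)

theorem swp_mem {k l m : ℕ} {c : Cube} : swp c ∈ box m l k ↔ c ∈ box k l m := by
  simp only [swp, box, Finset.mem_product, Finset.mem_Icc]
  tauto

theorem swp_nbr {c d : Cube} : Nbr (swp c) (swp d) ↔ Nbr c d := by
  simp only [swp, Nbr]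
  omega

theorem swp_swp (c : Cube) : swp (swp c) = c := rfl

theorem solution_swap {k l m : ℕ} (h : HasSolution k l m) : HasSolution m l k := by
  obtain ⟨τ, hout, hne⟩ := time_of_solution h
  have hcard : ∀ c, outc (box m l k) (fun d => τ (swp d)) c = outc (box k l m) τ (swp c) := by
    intro c
    unfold outc
    refine Finset.card_nbij' swp swp ?_ ?_ (fun _ _ => rfl) (fun _ _ => rfl)
    · intro d hd
      simp only [Finset.coe_filter, Set.mem_ofPred_eq] at hd ⊢
      exact ⟨swp_mem.2 hd.1, swp_nbr.2 hd.2.1, hd.2.2⟩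
    · intro d hd
      simp only [Finset.coe_filter, Set.mem_ofPred_eq] at hd ⊢
      exact ⟨swp_mem.2 hd.1, by rw [← swp_nbr]; exact hd.2.1, hd.2.2⟩
  refine solution_of_time (fun d => τ (swp d)) ?_ ?_
  · intro c hc
    rw [hcard]
    exact hout _ (swp_mem.2 hc)
  · intro c hc d hd hn
    exact hne _ (swp_mem.2 hc) _ (swp_mem.2 hd) (swp_nbr.2 hn)

theorem no_233 : ¬ HasSolution 2 3 3 := by
  intro h
  obtain ⟨T, hT⟩ := strip23 h
  exact no_strip hT (by omega) states23

theorem no_332 : ¬ HasSolution 3 3 2 := fun h => no_233 (solution_swap h)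

theorem no_22 {k : ℕ} (hk : 6 ≤ k) : ¬ HasSolution 2 2 k := by
  intro h
  obtain ⟨T, hT⟩ := strip22 h
  exact no_strip' hT (by omega) 6 hk states22

/-- **Classification.** -/
theorem result :
    (∀ k : ℕ, 1 ≤ k → (HasSolution 2 2 k ↔ (k = 2 ∨ k = 5))) ∧
    (∀ k : ℕ, 1 ≤ k → (HasSolution 2 3 k ↔ (3 ∣ k ∧ 6 ≤ k))) ∧
    (∀ k : ℕ, 1 ≤ k → (HasSolution 3 3 k ↔ k ≠ 2)) := by
  refine ⟨?_, ?_, ?_⟩
  · intro k hk
    constructor
    · intro h
      have h6 : k < 6 := by
        by_contra hcon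
        exact no_22 (by omega) h
      obtain ⟨m, rfl⟩ : ∃ m, k = m + 1 := ⟨k - 1, by omega⟩
      have hd := div_of_solution (k := 1) (l := 1) h
      omega
    · rintro (rfl | rfl)
      · exact sol_222
      · exact sol_225
  · intro k hk
    constructor
    · intro h
      obtain ⟨m, rfl⟩ : ∃ m, k = m + 1 := ⟨k - 1, by omega⟩
      have hd := div_of_solution (k := 1) (l := 2) h
      have h3 : m + 1 ≠ 3 := by
        intro h3
        rw [h3] at h
        exact no_233 h
      omega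
    · rintro ⟨h3, h6⟩
      rcases (by omega : k % 6 = 0 ∨ k % 6 = 3) with h | h
      · exact sol_G1 h6 h
      · exact sol_G2 (by omega) h
  · intro k hk
    constructor
    · rintro h rfl
      exact no_332 h
    · intro h
      rcases (by omega : k = 1 ∨ k = 3 ∨ 4 ≤ k) with rfl | rfl | h4
      · exact sol_331
      · exact sol_333
      · exact sol_F h4

end Pool.Agent.Results.MP_93d976_co.Classification
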